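import Pool.Agent.Lib.MP_cb38be_al_helper12.Main

set_option autoImplicit false

universe u v

namespace Pool.Agent.Results.MP_cb38be_al.InnerRigid

/-- Every finite simple group `K` is rigid relative to `Aut K`: if `L` is any group and `e : K ≃ L`
any bijection such that `e ∘ z ∘ e⁻¹` is multiplicative on `L` for every automorphism `z` of `K`,
then `L` and `K` are isomorphic. It is even enough to assume this for the inner automorphisms. -/
theorem result (K : Type u) [Group K] [Finite K] [IsSimpleGroup K]
    (L : Type v) [Group L] (e : K ≃ L)
    (he : ∀ z : MulAut K, z ∈ (MulAut.conj : K →* MulAut K).range → ∀ x y : L,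
      e (z (e.symm (x * y))) = e (z (e.symm x)) * e (z (e.symm y))) :
    Nonempty (L ≃* K) := by
  refine Pool.Agent.MP_cb38be.H12.rigid e (fun k x y => ?_)
  have := he (MulAut.conj k) ⟨k, rfl⟩ x y
  simpa only [MulAut.conj_apply] using this

end Pool.Agent.Results.MP_cb38be_al.InnerRigid
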